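import Pool.Agent.K9h15.NpB

/-!
# Vojta's height inequality near a given point: one exceptional set for all curves

Let `C` be a smooth projective curve over a number field, `D` a reduced effective divisor on `C` and
`t : C → ℙ¹` a finite map of degree `N` over `ℚ` which is unramified outside the fibres over
finitely many rational points `a_1, …, a_q` and maps the points of `D` to the `a_j` (such a map
exists by Belyi's theorem, with `q = 3`; we may suppose that `a_j ≠ ∞`). Let `A` be the ring of
functions on `C` with poles only over `∞`: a Dedekind domain, finite over `ℚ[t]`; ALL such rings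
are considered. Let `y_{j 0} = t - a_j, y_{j 1}, …` be generators of the radical of the ideal
`(t - a_j)`, the ideal of the reduced fibre `F_j` over `a_j`. Then `F = ∑ F_j ≥ D`,
`(deg K_C) / N = q - 2 - (∑_j dim (A / (y_{j 0}, y_{j 1}, …))) / N`, and
`λ_v(P) = ∑_j max(0, - log max_i |y_{j i}(P)|_v)` is a Weil function of `F` at `v`.

Conjecturally for `κ > 2` and each `C₀` all but finitely many points `P` of `C`, with `x = t(P)` of
given degree `r` and with `L = ℚ(P)`, satisfy
`m_S(F, P) + (q - κ - (∑_j dim (A / (y_{j 0}, y_{j 1}, …))) / N) h(x) ≤ d(L) + ∑_{p ∈ S} log p + C₀`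
(this is a consequence of the inequality of the problem). We prove that this and more (`κ = 2`, and
even `κ < 2`) is true for the points above the good approximations of a given generic point `ξ`.

**Theorem.** Let `X` be a metric space and `π` any map of the algebraic numbers to `X`, for example
an embedding into `ℂ` or `ℂ_p`, and `s ≥ 0`. There is a subset `E` of `X` of Hausdorff dimension at
most `s` such that each `ξ` outside `E` has the following property: for ALL `r ≥ 2` and `q ≥ 3`, all
real `κ ≤ q` and all `τ > 0` with `r e ≤ s τ`, where `e = exponent (alpha r c η) r q κ`, for ALL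
curves over ALL number fields, all finite maps `t` to the line, all distinct rational `a_1, …, a_q`
and all `C₀` and `M`: the inequality holds, for all points `P` above `x`, all number fields `L` over
which `P` is defined and all finite sets `S` of primes, for all but finitely many of the algebraic
numbers `x` of degree `r` with `dist (π x) ξ ≤ M H(x) ^ (-τ)`.

Here `e < r + 1` if `κ ≥ 0`. So for the quality `τ = r (r + 1)` of the approximations in the
theorems of Wirsing, Davenport-Schmidt and Sprindzhuk we may take `s = e / (r + 1) < 1`: for example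
for all real `ξ` outside a set of dimension `1 / 4` all curves satisfy Vojta's inequality without
`ε`, and with any constant, at all but finitely many of the points above the quadratic numbers `x`
with `|x - ξ| ≤ M H(x) ^ (-6)` (`r = 2`, `q = 3`, `κ = 2`, `e = 3 / 4`).

Proof. For one curve and given parameters the number of exceptional `x` with `H(x) ≤ B` is
`O(B ^ (r e + δ))` (`ProximityAllCurves`), which gives, by covering, the bound `r e / τ` for the
dimension (`R559.NP.near_dim`). The function fields of the curves are the fields `ℚ(t)[w] / (G)`,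
and these, the elements of their rings of integers over `ℚ[t]`, and rational `κ`, `τ` and integral
`C₀` are countably many. For other real `κ` and `τ` with `r e < s τ` we use slightly smaller rational
numbers, and the limit case `r e = s τ` follows by intersection of the sets for `s + 1 / j`.
-/

set_option autoImplicit false

namespace Pool.Agent.Results.MP_6f1c57_nt.AllCurvesNearAPoint

open Polynomial IsDedekindDomain NumberField
open ProximityAllCurves (height coord proximity logDisc degree alpha exponent)

/-- **Theorem.** For `η > 0` there is `c ≥ 1` such that, with `e = exponent (alpha r c η) r q κ`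
(which is smaller than `r + 1` if `κ ≥ 0`, and `3 / 4` if `r = 2`, `q = 3`, `κ = 2`), the following
holds. Let `s ≥ 0`, `X` a metric space and `π : ℂ → X` a map (only its values at the algebraic
numbers matter). There is `E ⊆ X` of Hausdorff dimension at most `s` such that for all `ξ` not in
`E`, all Dedekind domains `A` which are finite over `ℚ[t]` and contain it, all `r ≥ 2`, `q ≥ 3`,
`κ ≤ q` and `τ > 0` with `r e ≤ s τ`, all distinct rational numbers `a_1, …, a_q`, all elements
`y_{j 0} = t - a_j, y_{j 1}, …, y_{j u_j}` of the radical of the ideal `(t - a_j)` and all real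
`C₀` and `M` there are only finitely many algebraic numbers `x` of degree `r` with
`dist (π x) ξ ≤ M H(x) ^ (-τ)` over which there is a point `P = φ` of the curve, defined over a
number field `L`, such that
`m_S(F, P) + (q - κ - (∑_j dim (A / (y_{j 0}, y_{j 1}, …))) / N) h(x) ≤ d(L) + ∑_{p ∈ S} log p + C₀`
fails for some finite set `S` of primes. -/
theorem result : ∀ η : ℝ, 0 < η → ∃ c : ℝ, 1 ≤ c ∧
    exponent (alpha 2 c η) 2 3 2 = 3 / 4 ∧
    (∀ (r q : ℕ) (κ : ℝ), 2 ≤ r → 3 ≤ q → 0 ≤ κ → exponent (alpha r c η) r q κ < r + 1) ∧
    ∀ (s : ℝ), 0 ≤ s → ∀ (X : Type) [MetricSpace X] (π : ℂ → X),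
    ∃ E : Set X, dimH E ≤ ENNReal.ofReal s ∧ ∀ ξ : X, ξ ∉ E →
      ∀ (A : Type) [CommRing A] [IsDedekindDomain A] [Algebra ℚ A] [Algebra ℚ[X] A]
        [IsScalarTower ℚ ℚ[X] A] [Module.Finite ℚ[X] A] [FaithfulSMul ℚ[X] A]
        (r q : ℕ), 2 ≤ r → 3 ≤ q → ∀ κ τ : ℝ, κ ≤ q → 0 < τ →
        (r : ℝ) * exponent (alpha r c η) r q κ ≤ s * τ →
      ∀ a : Fin q → ℚ, Function.Injective a → ∀ (u : Fin q → ℕ) (y : ∀ j, Fin (u j + 1) → A),
        (∀ j, y j 0 = coord A - algebraMap ℚ[X] A (C (a j))) →
        (∀ j i, y j i ∈ (Ideal.span {coord A - algebraMap ℚ[X] A (C (a j))}).radical) →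
      ∀ C₀ M : ℝ, {x : ℂ | ∃ f : ℤ[X], Irreducible f ∧ f.natDegree = r ∧ aeval x f = 0 ∧
        dist (π x) ξ ≤ M * Real.exp (height f) ^ (-τ) ∧
        ∃ (L : IntermediateField ℚ ℂ) (_ : NumberField L) (φ : A →+* L) (S : Finset ℕ),
          (φ (coord A) : ℂ) = x ∧ (∀ p ∈ S, p.Prime) ∧
          logDisc L + ∑ p ∈ S, Real.log p + C₀ <
            proximity S u y L φ + (degree u y - κ) * height f}.Finite := by
  intro η hη
  obtain ⟨c, hc, hmain⟩ := ProximityAllCurves.result η hη
  refine ⟨c, hc, Pool.Agent.K9h15.Np.exponent_two hc hη,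
    fun r q κ hr hq hκ => ProximityWindows.expo_lt hr hq hc hκ, fun s hs X _ π => ?_⟩
  obtain ⟨E, hE1, hE2⟩ := Pool.Agent.K9h15.Np.all (c := c) (η := η) hmain hs X π
  refine ⟨E, hE1, fun ξ hξ A _ _ _ _ _ _ _ r q hr hq κ τ hκ hτ he a ha u y hy0 hyr C₀ M => ?_⟩
  refine (hE2 ξ hξ A r q hr hq κ τ hκ hτ he a ha u y hy0 hyr C₀ M).subset ?_
  rintro x ⟨f, h1, h2, h3, h4, h5⟩
  exact ⟨f, ⟨h1, h2, h3, h5⟩, h4⟩

end Pool.Agent.Results.MP_6f1c57_nt.AllCurvesNearAPoint
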