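import Pool.Agent.K9h15.NrB

/-!
# Vojta's height inequality in short windows of heights, for all curves and all number fields at once

Let `C` be a smooth projective curve over a number field, `D` a reduced effective divisor on `C` and
`t : C → ℙ¹` a finite map of degree `N` over `ℚ` which is unramified outside the fibres over
finitely many rational points `a_1, …, a_q` and maps the points of `D` to the `a_j` (such a map
exists by Belyi's theorem, with `q = 3`; we may suppose that `a_j ≠ ∞`). Let `A` be the ring of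
functions on `C` with poles only over `∞`: a Dedekind domain, finite over `ℚ[t]`; ALL such rings
are considered. Let `y_{j 0} = t - a_j, y_{j 1}, …` be generators of the radical of the ideal
`(t - a_j)`, the ideal of the reduced fibre `F_j` over `a_j`. Then `F = ∑ F_j ≥ D`,
`(deg K_C) / N = q - 2 - (∑_j dim (A / (y_{j 0}, y_{j 1}, …))) / N`, and
`λ_v(P) = ∑_j max(0, - log max_i |y_{j i}(P)|_v)` is a Weil function of `F` at `v`.

**Theorem.** Let `v ≥ 1` be a sequence with exponent of convergence at most `σ` (for `v_k = k ^ b`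
this is `1 / b`, for `v_k = b ^ k` it is `0`) and `s ≥ 0`. Let `𝓚_1, 𝓚_2, …` be families of number
fields such that `𝓚_i` contains at most `D_i ^ n` fields of degree `n`, for all `n`; for example the
fields of a tower `K_1 ⊂ K_2 ⊂ …`, or all cyclotomic fields. There is ONE set `E` of real numbers of
Hausdorff dimension at most `s` such that each `α > 0` outside `E` has the following property, for
ALL curves over ALL number fields, all finite maps `t` to the line, all `q ≥ 3`, all distinct
rational `a_1, …, a_q`, all real `0 < κ ≤ 2` and `θ < 1` with `(1 - κ / q) + σ ≤ s (1 - θ)` and all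
`M`. For each number field `K` let `H_K` be the height relative to `K`; about `X` elements of `K`
satisfy `H_K(x) ^ 2 ≤ X`.

(1) For ALL number fields `K`, all `c` and all large `k`: ALL `x ∈ K` with
`|H_K(x) ^ 2 - α v_k| ≤ M v_k ^ θ`, all points `P` of `C` above `x`, all number fields `L ⊇ K` over
which `P` is defined and all finite sets `S` of primes satisfy
`m_S(F, P) + (q - κ - (∑_j dim (A / (y_{j 0}, y_{j 1}, …))) / N) h(x) ≤ d(L) + ∑_{p ∈ S} log p + c`;
for `κ = 2` this is Vojta's inequality without `ε`, and `c` may be negative.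

(2) For each `i` and `c` there is a constant `b` such that for all large `k` the same is true for ALL
`x` in ALL fields `K` in `𝓚_i` with `|H_K(x) ^ 2 - α v_k| ≤ M v_k ^ θ` and `h(x) ≥ b`. So the degrees
of the points are not bounded here.

(3) For each `i` there are a constant `c` and a finite set `Z` of algebraic numbers such that for all
large `k` the inequality holds for ALL `x` in ALL fields `K` in `𝓚_i`, `x` not in `Z`, with
`|H_K(x) ^ 2 - α v_k| ≤ M v_k ^ θ`. This is the form of the inequality in the question.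

For `q = 3`, `κ = 2` the dimension is at most `(1 / 3 + σ) / (1 - θ)`. So for `v_k = 2 ^ k` we may
take any `θ < 2 / 3`, and for `v_k = k ^ b`, `b > 3 / 2`, any `θ < 2 / 3 - 1 / b`, and for almost all
`α`, even all `α` outside a set of dimension less than `1`, there are no exceptions in almost all
of these windows, which contain many elements of `K` if `θ > 0`.

The starting theorem `ProximityWindows` is about the algebraic numbers of degree `r` and one curve
at a time. Proof. By the starting result `AllFieldsHeightInequality` there are for one curve at most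
`(C B ^ (e + δ)) ^ n` exceptional `x ∈ K` with `H(x) ≤ B`, where `e = 2 - 2 κ / q` and `C` does not
depend on the number field `K`, of degree `n`. If `h(x) ≥ b` and `H_K(x) ^ 2 ≤ X` then the degree of
`K` is at most `(log X) / (2 b)`, so that there are at most `X ^ (e / 2 + δ')` exceptional pairs
`(K, x)` with `K` in `𝓚_i`, `h(x) ≥ b` and `H_K(x) ^ 2 ≤ X`, where `δ'` is small if `b` is large. Then we
use the lemma on windows `Pool.Agent.Y854.GM.windows` of the starting files, and that the curves are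
countably many. For (3), the proximity function is at most `C₁ h(x) + C₂`, uniformly in all fields,
if `x` is not in a finite set.
-/

set_option autoImplicit false

namespace Pool.Agent.Results.MP_6f1c57_nt.AllCurvesShortWindows

open IsDedekindDomain NumberField
open Polynomial hiding degree
open AllFieldsHeightInequality (height coord proximity logDisc degree)
open ProximityWindows (ExpLe)

/-- There is a point `P = φ` of the curve above `x ∈ K`, defined over a number field `L` which
contains `K`, and a finite set `S` of primes such that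
`m_S(F, P) + (q - κ - (∑_j dim (A / (y_{j 0}, …))) / N) h(x) ≤ d(L) + ∑_{p ∈ S} log p + c` fails. -/
def Fails (K : Type) [Field K] [NumberField K] {A : Type} [CommRing A] [Algebra ℚ A]
    [Algebra ℚ[X] A] {q : ℕ} (u : Fin q → ℕ) (y : ∀ j, Fin (u j + 1) → A) (κ c : ℝ) (x : K) :
    Prop :=
  ∃ (L : Type) (_ : Field L) (_ : NumberField L) (_ : Algebra K L) (φ : A →+* L) (S : Finset ℕ),
    φ (coord A) = algebraMap K L x ∧ (∀ p ∈ S, p.Prime) ∧
      logDisc L + ∑ p ∈ S, Real.log p + c < proximity S u y L φ + (degree u y - κ) * height x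

/-- the height of `x` relative to the number field `K` -/
noncomputable def relHeight {K : Type} [Field K] [NumberField K] (x : K) : ℝ :=
  Real.exp (Module.finrank ℚ K * height x)

/-- **Theorem.** Let `v ≥ 1` be a sequence with exponent of convergence at most `σ`, `s ≥ 0` and `𝓚 i`,
for `i` in a countable set, families of number fields in `ℂ` such that `𝓚 i` contains at most
`(D i) ^ n` fields of degree `n`, for all `n ≥ 1`. There is `E ⊆ ℝ` of Hausdorff dimension at most
`s` such that for all `α > 0` not in `E`, all Dedekind domains `A` which are finite over `ℚ[t]` and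
contain it, all `q ≥ 3`, `0 < κ ≤ 2` and `θ < 1` with `(1 - κ / q) + σ ≤ s (1 - θ)`, all distinct
rational numbers `a_1, …, a_q`, all elements `y_{j 0} = t - a_j, y_{j 1}, …, y_{j u_j}` of the radical
of the ideal `(t - a_j)` and all real `M`: (1) for all `c` and all number fields `K`, for all large
`k` the inequality holds for all `x ∈ K` with `|H_K(x) ^ 2 - α v_k| ≤ M v_k ^ θ`; (2) for each `i` and
`c` there is `b` such that for all large `k` the inequality holds for all `K` in `𝓚 i` and all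
`x ∈ K` with `h(x) ≥ b` and `|H_K(x) ^ 2 - α v_k| ≤ M v_k ^ θ`; (3) for each `i` there are `c` and a
finite set `Z` of numbers such that for all large `k` the inequality holds for all `K` in `𝓚 i` and
all `x ∈ K`, not in `Z`, with `|H_K(x) ^ 2 - α v_k| ≤ M v_k ^ θ`. -/
theorem result : ∀ (v : ℕ → ℝ) (σ : ℝ), (∀ k, 1 ≤ v k) → 0 ≤ σ → ExpLe v σ → ∀ s : ℝ, 0 ≤ s →
    ∀ (ι : Type) [Countable ι] (𝓚 : ι → Set (IntermediateField ℚ ℂ)) (D : ι → ℕ),
    (∀ (i : ι) (n : ℕ), 1 ≤ n → {K | K ∈ 𝓚 i ∧ Module.finrank ℚ K = n}.Finite ∧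
      {K | K ∈ 𝓚 i ∧ Module.finrank ℚ K = n}.ncard ≤ D i ^ n) →
    ∃ E : Set ℝ, dimH E ≤ ENNReal.ofReal s ∧ ∀ α : ℝ, 0 < α → α ∉ E →
      ∀ (A : Type) [CommRing A] [IsDedekindDomain A] [Algebra ℚ A] [Algebra ℚ[X] A]
        [IsScalarTower ℚ ℚ[X] A] [Module.Finite ℚ[X] A] [FaithfulSMul ℚ[X] A]
        (q : ℕ), 3 ≤ q → ∀ κ θ : ℝ, 0 < κ → κ ≤ 2 → θ < 1 → (1 - κ / q) + σ ≤ s * (1 - θ) →
      ∀ a : Fin q → ℚ, Function.Injective a → ∀ (u : Fin q → ℕ) (y : ∀ j, Fin (u j + 1) → A),
        (∀ j, y j 0 = coord A - algebraMap ℚ[X] A (C (a j))) →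
        (∀ j i, y j i ∈ (Ideal.span {coord A - algebraMap ℚ[X] A (C (a j))}).radical) →
      ∀ M : ℝ,
        (∀ (c : ℝ) (K : IntermediateField ℚ ℂ) [NumberField K], ∃ k₀ : ℕ, ∀ k, k₀ ≤ k →
          ∀ x : K, |relHeight x ^ 2 - α * v k| ≤ M * v k ^ θ → ¬ Fails K u y κ c x) ∧
        (∀ (i : ι) (c : ℝ), ∃ (b : ℝ) (k₀ : ℕ), ∀ k, k₀ ≤ k → ∀ K ∈ 𝓚 i,
          ∀ [NumberField K] (x : K), b ≤ height x →
            |relHeight x ^ 2 - α * v k| ≤ M * v k ^ θ → ¬ Fails K u y κ c x) ∧
        (∀ i : ι, ∃ (c : ℝ) (Z : Set ℂ) (k₀ : ℕ), Z.Finite ∧ ∀ k, k₀ ≤ k → ∀ K ∈ 𝓚 i,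
          ∀ [NumberField K] (x : K), (x : ℂ) ∉ Z →
            |relHeight x ^ 2 - α * v k| ≤ M * v k ^ θ → ¬ Fails K u y κ c x) := by
  classical
  intro v σ hv hσ hvσ s hs ι _ 𝓚 D hD
  haveI := Pool.Agent.K9h15.Nq.countable_nf
  have hthin : ∀ i : ι ⊕ Pool.Agent.K9h15.Nq.NF,
      Pool.Agent.K9h15.Nq.Thin (Sum.elim 𝓚 (fun K => {K.1}) i) := by
    rintro (i | K₀)
    · refine ⟨D i, fun n => ?_⟩
      rcases Nat.eq_zero_or_pos n with rfl | hn
      · have h0 : {K : Pool.Agent.K9h15.Nq.NF | K.1 ∈ 𝓚 i ∧ Module.finrank ℚ K.1 = 0} = ∅ := by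
          rw [Set.eq_empty_iff_forall_notMem]
          rintro K ⟨-, h⟩
          have : 0 < Module.finrank ℚ K.1 := Module.finrank_pos
          omega
        show {K : Pool.Agent.K9h15.Nq.NF | K.1 ∈ 𝓚 i ∧ Module.finrank ℚ K.1 = 0}.Finite ∧
          {K : Pool.Agent.K9h15.Nq.NF | K.1 ∈ 𝓚 i ∧ Module.finrank ℚ K.1 = 0}.ncard ≤ D i ^ 0
        rw [h0]
        simp
      obtain ⟨h1, h2⟩ := hD i n hn
      have hmaps : ∀ K ∈ {K : Pool.Agent.K9h15.Nq.NF | K.1 ∈ 𝓚 i ∧ Module.finrank ℚ K.1 = n},
          K.1 ∈ {K | K ∈ 𝓚 i ∧ Module.finrank ℚ K = n} := fun K hK => hK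
      have hinj : Set.InjOn (fun K : Pool.Agent.K9h15.Nq.NF => K.1)
          {K : Pool.Agent.K9h15.Nq.NF | K.1 ∈ 𝓚 i ∧ Module.finrank ℚ K.1 = n} :=
        Subtype.val_injective.injOn
      exact ⟨Set.Finite.of_injOn hmaps hinj h1,
        (Set.ncard_le_ncard_of_injOn (fun K : Pool.Agent.K9h15.Nq.NF => K.1) hmaps hinj h1).trans
          h2⟩
    · refine ⟨1, fun n => ?_⟩
      have hsub : {K : Pool.Agent.K9h15.Nq.NF | K.1 ∈ ({K₀.1} : Set (IntermediateField ℚ ℂ)) ∧
          Module.finrank ℚ K.1 = n} ⊆ {K₀} := by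
        rintro K ⟨h1, -⟩
        exact Subtype.ext h1
      refine ⟨(Set.finite_singleton K₀).subset hsub, ?_⟩
      rw [one_pow]
      exact (Set.ncard_le_ncard hsub (Set.finite_singleton K₀)).trans (Set.ncard_singleton K₀).le
  obtain ⟨E, hE1, hE2⟩ := Pool.Agent.K9h15.Nr.main hv hσ hvσ hs
    (Sum.elim 𝓚 (fun K : Pool.Agent.K9h15.Nq.NF => {K.1})) hthin
  have hrel : ∀ (K : IntermediateField ℚ ℂ) [NumberField K] (x : K), relHeight x ^ 2 =
      Real.exp (2 * (Module.finrank ℚ K * height x)) := by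
    intro K _ x
    rw [relHeight, ← Real.exp_nat_mul]
    push_cast
    rfl
  refine ⟨E, hE1, fun α hα hαE A _ _ _ _ _ _ _ q hq κ θ hκ0 hκ hθ he a ha u y hy0 hyr M =>
    ⟨fun c K _ => ?_, fun i c => ?_, fun i => ?_⟩⟩
  · obtain ⟨b, k₀, hb⟩ := hE2 α hα hαE (Sum.inr ⟨K, inferInstance⟩) q hq κ θ hκ0 hκ hθ he A a ha
      u y hy0 hyr c M
    -- the windows leave every bounded interval
    have hlim := Pool.Agent.K9h15.Nr.expLe_tendsto hv hσ hvσ
    have hlim2 : Filter.Tendsto (fun k => v k ^ (1 - θ)) Filter.atTop Filter.atTop :=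
      (tendsto_rpow_atTop (by linarith)).comp hlim
    obtain ⟨k₁, hk₁⟩ := (hlim2.eventually_ge_atTop
      (2 * |M| / α)).exists_forall_of_atTop
    obtain ⟨k₂, hk₂⟩ := (hlim.eventually_gt_atTop
      (2 * Real.exp (2 * (Module.finrank ℚ K * b)) / α)).exists_forall_of_atTop
    refine ⟨max k₀ (max k₁ k₂), fun k hk x hw hf => ?_⟩
    have hk0 : k₀ ≤ k := (le_max_left _ _).trans hk
    have hk1 : k₁ ≤ k := ((le_max_left _ _).trans (le_max_right _ _)).trans hk
    have hk2 : k₂ ≤ k := ((le_max_right _ _).trans (le_max_right _ _)).trans hk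
    rw [hrel] at hw
    refine hb k hk0 ⟨⟨K, inferInstance⟩, x⟩ rfl ?_ hw hf
    by_contra hlt
    push Not at hlt
    have hlt : height x < b := hlt
    have hvk : 0 < v k := by have := hv k; linarith
    have g1 := hk₁ k hk1
    have g2 := hk₂ k hk2
    rw [div_le_iff₀ hα] at g1
    rw [div_lt_iff₀ hα] at g2
    have g3 : v k ^ (1 - θ) * v k ^ θ = v k := by
      rw [← Real.rpow_add hvk, sub_add_cancel, Real.rpow_one]
    have g4 : 2 * |M| * v k ^ θ ≤ α * v k := by
      calc 2 * |M| * v k ^ θ ≤ (v k ^ (1 - θ) * α) * v k ^ θ :=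
            mul_le_mul_of_nonneg_right g1 (by positivity)
        _ = α * (v k ^ (1 - θ) * v k ^ θ) := by ring
        _ = α * v k := by rw [g3]
    have g5 : M * v k ^ θ ≤ |M| * v k ^ θ :=
      mul_le_mul_of_nonneg_right (le_abs_self M) (by positivity)
    have hn : (0 : ℝ) < Module.finrank ℚ K := by exact_mod_cast Module.finrank_pos
    have g6 : Real.exp (2 * (Module.finrank ℚ K * height x)) <
        Real.exp (2 * (Module.finrank ℚ K * b)) :=
      Real.exp_lt_exp.2 (mul_lt_mul_of_pos_left (mul_lt_mul_of_pos_left hlt hn) two_pos)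
    have g7 := (abs_le.1 hw).1
    have g8 : (0 : ℝ) ≤ |M| * v k ^ θ := by positivity
    linarith
  · obtain ⟨b, k₀, hb⟩ := hE2 α hα hαE (Sum.inl i) q hq κ θ hκ0 hκ hθ he A a ha u y hy0 hyr c M
    refine ⟨b, k₀, fun k hk K hK hNF x hbx hw hf => ?_⟩
    rw [hrel] at hw
    exact hb k hk ⟨⟨K, hNF⟩, x⟩ hK hbx hw hf
  · obtain ⟨b, k₀, hb⟩ := hE2 α hα hαE (Sum.inl i) q hq κ θ hκ0 hκ hθ he A a ha u y hy0 hyr 0 M
    obtain ⟨Z, c, hZ, hc, hno⟩ := Pool.Agent.K9h15.Nq.no_fail A a hy0 hyr κ b
    refine ⟨c, Z, k₀, hZ, fun k hk K hK hNF x hx hw hf => ?_⟩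
    rcases le_total (height x) b with h | h
    · exact hno ⟨K, hNF⟩ x hx h hf
    · rw [hrel] at hw
      exact hb k hk ⟨⟨K, hNF⟩, x⟩ hK h hw (Pool.Agent.K9h15.Nq.Fails.mono hf le_rfl hc)

end Pool.Agent.Results.MP_6f1c57_nt.AllCurvesShortWindows
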