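import Pool.Agent.K9h15.NqC

/-!
# Vojta's height inequality near a given point, over all number fields and for unbounded degrees

Let `C` be a smooth projective curve over a number field, `D` a reduced effective divisor on `C` and
`t : C → ℙ¹` a finite map of degree `N` over `ℚ` which is unramified outside the fibres over
finitely many rational points `a_1, …, a_q` and maps the points of `D` to the `a_j` (such a map
exists by Belyi's theorem, with `q = 3`; we may suppose that `a_j ≠ ∞`). Let `A` be the ring of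
functions on `C` with poles only over `∞`: a Dedekind domain, finite over `ℚ[t]`; ALL such rings
are considered. Let `y_{j 0} = t - a_j, y_{j 1}, …` be generators of the radical of the ideal
`(t - a_j)`, the ideal of the reduced fibre `F_j` over `a_j`. Then `F = ∑ F_j ≥ D`,
`(deg K_C) / N = q - 2 - (∑_j dim (A / (y_{j 0}, y_{j 1}, …))) / N`, and
`λ_v(P) = ∑_j max(0, - log max_i |y_{j i}(P)|_v)` is a Weil function of `F` at `v`.

**Theorem.** Let `X` be a metric space and `π` any map of the algebraic numbers to `X`, for example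
an embedding into `ℂ` or `ℂ_p`, and `s ≥ 0`. Let `𝓚_1, 𝓚_2, …` be families of number fields such
that `𝓚_i` contains at most `D_i ^ n` fields of degree `n`, for all `n`; for example the fields of a
tower `K_1 ⊂ K_2 ⊂ …`, or all cyclotomic fields. There is a subset `E` of `X` of Hausdorff dimension
at most `s` such that each `ξ` outside `E` has the following property, for ALL curves over ALL
number fields, all finite maps `t` to the line, all `q ≥ 3`, all distinct rational `a_1, …, a_q`,
all real `0 < κ ≤ 2` and `τ > 0` with `2 - 2 κ / q ≤ s τ` and all `c` and `M`. For each number field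
`K` let `H_K` be the height relative to `K`.

(1) For ALL number fields `K`, for all but finitely many of the `x ∈ K` with
`dist (π x) ξ ≤ M H_K(x) ^ (-τ)`, all points `P` of `C` above `x`, all number fields `L ⊇ K` over
which `P` is defined and all finite sets `S` of primes satisfy
`m_S(F, P) + (q - κ - (∑_j dim (A / (y_{j 0}, y_{j 1}, …))) / N) h(x) ≤ d(L) + ∑_{p ∈ S} log p + c`;
for `κ = 2` this is Vojta's inequality without `ε`, and `c` may be negative.

(2) For each `i` there is a constant `b` such that the same is true for all but finitely many of the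
pairs `(K, x)`, where `K` is in `𝓚_i` (of whatever degree `n`), `x ∈ K`, `h(x) ≥ b` and
`dist (π x) ξ ≤ M ^ n H_K(x) ^ (-τ)`. So the degrees of the points are not bounded here.

(3) So the inequality holds in the form of the question and for unbounded degrees: for each `i` there
are a constant `c` and a finite set `Z` of algebraic numbers such that
`m_S(F, P) + (q - κ - (∑_j dim (A / (y_{j 0}, y_{j 1}, …))) / N) h(x) ≤ d(L) + ∑_{p ∈ S} log p + c`
for ALL fields `K` in `𝓚_i`, ALL `x ∈ K`, not in `Z`, with `dist (π x) ξ ≤ M ^ n H_K(x) ^ (-τ)`, all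
points `P` above `x`, all `L` and all `S`.

For `τ = 2`, the quality of the approximations of a real number by the elements of a real number
field in Dirichlet's theorem, we may take `s = 1 - κ / q`, which is `1 / 3` for `q = 3`, `κ = 2`.

Proof. By the starting result `AllFieldsHeightInequality` there are for one curve at most
`(C B ^ (e + δ)) ^ n` exceptional `x ∈ K` with `H(x) ≤ B`, where `e = 2 - 2 κ / q` and `C` does not
depend on the number field `K`, of degree `n`. The number of pairs `(K, x)` with `K` in `𝓚_i` of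
degree `n` and `b + k ≤ h(x) ≤ b + k + 1` is thus at most `exp(n (d + c' + (e + δ) (b + k + 1)))`, and
the sum over them of the `s`-th powers of the radii is at most `exp(- n - γ k)`, if `b` is large,
where `γ = s τ - e - δ > 0`: the sum over all `n` and `k` converges. For (3), the proximity function is
at most `C₁ h(x) + C₂`, uniformly in all fields, if `x` is not in a finite set, so that the points with
`h(x) ≤ b` satisfy the inequality with a suitable constant `c`. The curves are countably many:
they are given by the irreducible polynomials `G` over `ℚ(t)`, and by elements of the integral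
closure of `ℚ[t]` in `ℚ(t)[w] / (G)`. The case `e = s τ` follows by intersection of the sets for
`s + 1 / j`.
-/

set_option autoImplicit false

namespace Pool.Agent.Results.MP_6f1c57_nt.AllFieldsNearAPoint

open IsDedekindDomain NumberField
open Polynomial hiding degree
open AllFieldsHeightInequality (height coord proximity logDisc degree)

/-- There is a point `P = φ` of the curve above `x ∈ K`, defined over a number field `L` which
contains `K`, and a finite set `S` of primes such that
`m_S(F, P) + (q - κ - (∑_j dim (A / (y_{j 0}, …))) / N) h(x) ≤ d(L) + ∑_{p ∈ S} log p + c` fails. -/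
def Fails (K : Type) [Field K] [NumberField K] {A : Type} [CommRing A] [Algebra ℚ A]
    [Algebra ℚ[X] A] {q : ℕ} (u : Fin q → ℕ) (y : ∀ j, Fin (u j + 1) → A) (κ c : ℝ) (x : K) :
    Prop :=
  ∃ (L : Type) (_ : Field L) (_ : NumberField L) (_ : Algebra K L) (φ : A →+* L) (S : Finset ℕ),
    φ (coord A) = algebraMap K L x ∧ (∀ p ∈ S, p.Prime) ∧
      logDisc L + ∑ p ∈ S, Real.log p + c < proximity S u y L φ + (degree u y - κ) * height x

/-- the height of `x` relative to the number field `K` -/
noncomputable def relHeight {K : Type} [Field K] [NumberField K] (x : K) : ℝ :=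
  Real.exp (Module.finrank ℚ K * height x)

/-- **Theorem.** Let `s ≥ 0`, `X` a metric space, `π : ℂ → X` a map (only its values at the
algebraic numbers matter) and `𝓚 i`, for `i` in a countable set, families of number fields in `ℂ`
such that `𝓚 i` contains at most `(D i) ^ n` fields of degree `n`, for all `n ≥ 1`. There is `E ⊆ X` of
Hausdorff dimension at most `s` such that for all `ξ` not in `E`, all Dedekind domains `A` which are
finite over `ℚ[t]` and contain it, all `q ≥ 3`, `0 < κ ≤ 2` and `τ > 0` with `2 - 2 κ / q ≤ s τ`, all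
distinct rational numbers `a_1, …, a_q`, all elements `y_{j 0} = t - a_j, y_{j 1}, …, y_{j u_j}` of
the radical of the ideal `(t - a_j)` and all real `M`: (1) for all `c` and all number fields `K`
there are only finitely many `x ∈ K` with `dist (π x) ξ ≤ M H_K(x) ^ (-τ)` for which the inequality
fails; (2) for each `i` and `c` there is `b` such that there are only finitely many pairs `(K, x)`
with `K` in `𝓚 i`, of degree `n`, `x ∈ K`, `h(x) ≥ b` and `dist (π x) ξ ≤ M ^ n H_K(x) ^ (-τ)` for
which the inequality fails; (3) for each `i` there are `c` and a finite set `Z` of numbers such that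
the inequality holds for all `K` in `𝓚 i`, of any degree `n`, and all `x ∈ K`, not in `Z`, with
`dist (π x) ξ ≤ M ^ n H_K(x) ^ (-τ)`. -/
theorem result : ∀ s : ℝ, 0 ≤ s → ∀ (X : Type) [MetricSpace X] (π : ℂ → X)
    (ι : Type) [Countable ι] (𝓚 : ι → Set (IntermediateField ℚ ℂ)) (D : ι → ℕ),
    (∀ (i : ι) (n : ℕ), 1 ≤ n → {K | K ∈ 𝓚 i ∧ Module.finrank ℚ K = n}.Finite ∧
      {K | K ∈ 𝓚 i ∧ Module.finrank ℚ K = n}.ncard ≤ D i ^ n) →
    ∃ E : Set X, dimH E ≤ ENNReal.ofReal s ∧ ∀ ξ : X, ξ ∉ E →
      ∀ (A : Type) [CommRing A] [IsDedekindDomain A] [Algebra ℚ A] [Algebra ℚ[X] A]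
        [IsScalarTower ℚ ℚ[X] A] [Module.Finite ℚ[X] A] [FaithfulSMul ℚ[X] A]
        (q : ℕ), 3 ≤ q → ∀ κ τ : ℝ, 0 < κ → κ ≤ 2 → 0 < τ → 2 - 2 * κ / q ≤ s * τ →
      ∀ a : Fin q → ℚ, Function.Injective a → ∀ (u : Fin q → ℕ) (y : ∀ j, Fin (u j + 1) → A),
        (∀ j, y j 0 = coord A - algebraMap ℚ[X] A (C (a j))) →
        (∀ j i, y j i ∈ (Ideal.span {coord A - algebraMap ℚ[X] A (C (a j))}).radical) →
      ∀ M : ℝ,
        (∀ (c : ℝ) (K : IntermediateField ℚ ℂ) [NumberField K],
          {x : K | Fails K u y κ c x ∧ dist (π x) ξ ≤ M * relHeight x ^ (-τ)}.Finite) ∧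
        (∀ (i : ι) (c : ℝ), ∃ b : ℝ, {z : IntermediateField ℚ ℂ × ℂ | z.1 ∈ 𝓚 i ∧
          ∃ (_ : NumberField z.1) (x : z.1), (x : ℂ) = z.2 ∧ b ≤ height x ∧
            Fails z.1 u y κ c x ∧
            dist (π x) ξ ≤ M ^ Module.finrank ℚ z.1 * relHeight x ^ (-τ)}.Finite) ∧
        (∀ i : ι, ∃ (c : ℝ) (Z : Set ℂ), Z.Finite ∧ ∀ K ∈ 𝓚 i, ∀ [NumberField K] (x : K),
          (x : ℂ) ∉ Z → dist (π x) ξ ≤ M ^ Module.finrank ℚ K * relHeight x ^ (-τ) →
            ¬ Fails K u y κ c x) := by
  classical
  intro s hs X _ π ι _ 𝓚 D hD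
  haveI := Pool.Agent.K9h15.Nq.countable_nf
  have hthin : ∀ i : ι ⊕ Pool.Agent.K9h15.Nq.NF,
      Pool.Agent.K9h15.Nq.Thin (Sum.elim 𝓚 (fun K => {K.1}) i) := by
    rintro (i | K₀)
    · refine ⟨D i, fun n => ?_⟩
      rcases Nat.eq_zero_or_pos n with rfl | hn
      · have h0 : {K : Pool.Agent.K9h15.Nq.NF | K.1 ∈ 𝓚 i ∧ Module.finrank ℚ K.1 = 0} = ∅ := by
          rw [Set.eq_empty_iff_forall_notMem]
          rintro K ⟨-, h⟩
          have : 0 < Module.finrank ℚ K.1 := Module.finrank_pos
          omega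
        show {K : Pool.Agent.K9h15.Nq.NF | K.1 ∈ 𝓚 i ∧ Module.finrank ℚ K.1 = 0}.Finite ∧
          {K : Pool.Agent.K9h15.Nq.NF | K.1 ∈ 𝓚 i ∧ Module.finrank ℚ K.1 = 0}.ncard ≤ D i ^ 0
        rw [h0]
        simp
      obtain ⟨h1, h2⟩ := hD i n hn
      have hmaps : ∀ K ∈ {K : Pool.Agent.K9h15.Nq.NF | K.1 ∈ 𝓚 i ∧ Module.finrank ℚ K.1 = n},
          K.1 ∈ {K | K ∈ 𝓚 i ∧ Module.finrank ℚ K = n} := fun K hK => hK
      have hinj : Set.InjOn (fun K : Pool.Agent.K9h15.Nq.NF => K.1)
          {K : Pool.Agent.K9h15.Nq.NF | K.1 ∈ 𝓚 i ∧ Module.finrank ℚ K.1 = n} :=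
        Subtype.val_injective.injOn
      exact ⟨Set.Finite.of_injOn hmaps hinj h1,
        (Set.ncard_le_ncard_of_injOn (fun K : Pool.Agent.K9h15.Nq.NF => K.1) hmaps hinj h1).trans
          h2⟩
    · refine ⟨1, fun n => ?_⟩
      have hsub : {K : Pool.Agent.K9h15.Nq.NF | K.1 ∈ ({K₀.1} : Set (IntermediateField ℚ ℂ)) ∧
          Module.finrank ℚ K.1 = n} ⊆ {K₀} := by
        rintro K ⟨h1, -⟩
        exact Subtype.ext h1
      refine ⟨(Set.finite_singleton K₀).subset hsub, ?_⟩
      rw [one_pow]
      exact (Set.ncard_le_ncard hsub (Set.finite_singleton K₀)).trans (Set.ncard_singleton K₀).le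
  obtain ⟨E, hE1, hE2⟩ := Pool.Agent.K9h15.Nq.main hs X π
    (Sum.elim 𝓚 (fun K : Pool.Agent.K9h15.Nq.NF => {K.1})) hthin
  refine ⟨E, hE1, fun ξ hξ A _ _ _ _ _ _ _ q hq κ τ hκ0 hκ hτ he a ha u y hy0 hyr M =>
    ⟨fun c K _ => ?_, fun i c => ?_, fun i => ?_⟩⟩
  · obtain ⟨b, hb⟩ := hE2 ξ hξ (Sum.inr ⟨K, inferInstance⟩) q hq κ τ hκ0 hκ hτ he A a ha u y hy0
      hyr c (max |M| 1)
    have hfin1 : {x : K | height x ≤ b}.Finite := by
      refine (AllFieldsHeightInequality.fin_Elts (K := K) (Real.exp b)).subset fun x hx => ?_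
      show height x ≤ Real.log (Real.exp b)
      rw [Real.log_exp]
      exact hx
    have hinj : Function.Injective
        (fun x : K => (⟨⟨K, inferInstance⟩, x⟩ : Σ K : Pool.Agent.K9h15.Nq.NF, K.1)) := by
      intro x x' h
      simpa using h
    refine (hfin1.union (hb.preimage hinj.injOn)).subset ?_
    rintro x ⟨h1, h2⟩
    rcases le_total (height x) b with h | h
    · exact Or.inl h
    · refine Or.inr ⟨rfl, h1, h, h2.trans (mul_le_mul_of_nonneg_right ?_
        (Real.rpow_nonneg (Real.exp_pos _).le _))⟩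
      have hn : 1 ≤ Module.finrank ℚ K := Module.finrank_pos
      have h3 : max |M| 1 ≤ max |M| 1 ^ Module.finrank ℚ K :=
        le_self_pow₀ (le_max_right _ _) (by omega)
      exact ((le_abs_self M).trans (le_max_left _ _)).trans h3
  · obtain ⟨b, hb⟩ := hE2 ξ hξ (Sum.inl i) q hq κ τ hκ0 hκ hτ he A a ha u y hy0 hyr c M
    refine ⟨b, (hb.image fun z => (z.1.1, (z.2 : ℂ))).subset ?_⟩
    rintro ⟨K, x'⟩ ⟨h1, hK, x, h5, h2, h3, h4⟩
    exact ⟨⟨⟨K, hK⟩, x⟩, ⟨h1, h3, h2, h4⟩, Prod.ext rfl h5⟩
  · obtain ⟨b, hb⟩ := hE2 ξ hξ (Sum.inl i) q hq κ τ hκ0 hκ hτ he A a ha u y hy0 hyr 0 M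
    obtain ⟨Z, c, hZ, hc, hno⟩ := Pool.Agent.K9h15.Nq.no_fail A a hy0 hyr κ b
    refine ⟨c, Z ∪ (fun z : Σ K : Pool.Agent.K9h15.Nq.NF, K.1 => (z.2 : ℂ)) '' _,
      hZ.union (hb.image _), fun K hK hNF x hx hd hf => ?_⟩
    rcases le_total (height x) b with h | h
    · exact hno ⟨K, hNF⟩ x (fun h' => hx (Or.inl h')) h hf
    · refine hx (Or.inr ⟨⟨⟨K, hNF⟩, x⟩, ⟨hK, ?_, h, hd⟩, rfl⟩)
      exact Pool.Agent.K9h15.Nq.Fails.mono hf le_rfl hc

end Pool.Agent.Results.MP_6f1c57_nt.AllFieldsNearAPoint
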