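import Pool.Agent.N783.PF.Jac
import Pool.Agent.K9h33.ORQ.MainR
import Pool.Agent.K9h33.ORQ.Ext

/-!
# The algebraic points of degree at most 2g on a positive proportion of the hyperelliptic curves

Let `k` be a number field and `g ≥ 1`. Order all the monic polynomials `f` of degree `2 g + 1` with
coefficients in the ring of integers of `k` and without term of degree `2 g` by their height. Let `C` be the
smooth projective curve of genus `g` with the affine equation `y ^ 2 = f(x)` and one point `∞` at infinity.

We prove that for a positive proportion of the `f`, all the algebraic points `P = (a, b)` of `C` of degree at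
most `2 g` over `k` come from the projective line: the field `k(P)` is a quadratic extension of `k(a)`. So
there are no points of odd degree less than `2 g`, except `∞`, and the points `P` of degree `2 d ≤ 2 g` are the
points over the points `a` of degree `d` of the line. The bound `2 g` is the best possible: the zeroes of `f`
are points of degree `2 g + 1`.

For the conjecture of Vojta this means: for these curves and `ν ≤ 2 g` the height inequality is proved for the
points of odd degree (there is only one), and the other points of degree at most `ν` are the points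
`(a, sqrt (f(a)))` with `a` of degree at most `ν / 2`.

Proof. The Mordell-Weil group `J(k)`, the Picard group of the coordinate ring, is trivial for a positive
proportion of the `f` (`MP_8c338f_nt.TwistTowersOnePoint`, where the proof is explained). If `b` is in `k(a)`,
`b = V(a)` for a polynomial `V` over `k`, and the ideal `(U, y - V)`, with `U` the minimal polynomial of `a`,
is principal, `(φ)`; the norm of `φ = A + B y` is `A ^ 2 - f B ^ 2 = c U`, of degree at most `2 g`, so that
`B = 0` and `A ^ 2 = c U`, which is impossible as `U` is irreducible (`K9h33/ORQ/Ext.lean`).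
-/

set_option autoImplicit false

open Polynomial NumberField IntermediateField

namespace Pool.Agent.Results.MP_6f1c57_nt.PointsFromTheLine

section poly

variable (k : Type) [Field k] [NumberField k] (g B : ℕ)

/-- `f` is monic of degree `2 g + 1` without term of degree `2 g`, and all the conjugates of the coefficient
of `x ^ j` are at most `B ^ (2 g + 1 - j)` in absolute value. -/
structure IsPoly (f : (𝓞 k)[X]) : Prop where
  monic : f.Monic
  degree : f.natDegree = 2 * g + 1
  trace : f.coeff (2 * g) = 0
  height : ∀ j ≤ 2 * g, ∀ σ : k →+* ℂ, ‖σ (f.coeff j : k)‖ ≤ (B : ℝ) ^ (2 * g + 1 - j)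

/-- all the polynomials `f` of height at most `B` -/
def Polys : Set (𝓞 k)[X] := {f | IsPoly k g B f}

/-- the polynomial `f` over `k` -/
noncomputable def polyF (f : (𝓞 k)[X]) : k[X] := f.map (algebraMap (𝓞 k) k)

end poly

section curve

variable {k : Type} [Field k] (h : k[X])

/-- the affine curve `y ^ 2 = h(x)` is smooth -/
def SmoothCurve : Prop := h.Separable

/-- every algebraic point `P = (a, b)` of the affine curve `y ^ 2 = h(x)`, over any extension `L` of `k`, with
`[k(P) : k] ≤ n` has `[k(P) : k(a)] = 2`; that is `[k(P) : k] = 2 [k(a) : k]` -/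
def FromTheLine (n : ℕ) : Prop := ∀ (L : Type) [Field L] [Algebra k L] (a b : L),
  IsAlgebraic k a → b ^ 2 = aeval a h → Module.finrank k k⟮a, b⟯ ≤ n →
    Module.finrank k k⟮a, b⟯ = 2 * Module.finrank k k⟮a⟯

end curve

/-- The polynomials `f` of height at most `B` for which `y ^ 2 = f(x)` is smooth and its algebraic points of
degree at most `2 g` over `k` come from the line. -/
def Good (k : Type) [Field k] [NumberField k] (g B : ℕ) : Set (𝓞 k)[X] :=
  {f ∈ Polys k g B | SmoothCurve (polyF k f) ∧ FromTheLine (polyF k f) (2 * g)}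

/-! ### Proof -/

open Pool.Agent.K9h33.ORQ
open Pool.Agent.N783.PF (Ht SelZero fF)

theorem le_ncard {F : Type} [Field F] [NumberField F] (g B : ℕ) (hg : 1 ≤ g)
    (hfin : (Polys F g B).Finite) : B ≤ (Polys F g B).ncard := by
  have h1 : ∀ k < B, (X ^ (2 * g + 1) + C ((k : ℕ) : 𝓞 F) : (𝓞 F)[X]) ∈ Polys F g B := by
    intro k hk
    refine ⟨monic_X_pow_add_C _ (by omega), natDegree_X_pow_add_C, ?_, ?_⟩
    · rw [coeff_add, coeff_X_pow, if_neg (by omega), coeff_C, if_neg (by omega), add_zero]
    · intro j hj σ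
      have hB1 : (1 : ℝ) ≤ B := by exact_mod_cast (by omega : 1 ≤ B)
      rw [coeff_add, coeff_X_pow, if_neg (by omega), coeff_C, zero_add]
      split_ifs with h0
      · rw [h0, Nat.sub_zero]
        have h2 : σ (((k : ℕ) : 𝓞 F) : F) = (k : ℂ) := by
          simp
        rw [h2, Complex.norm_natCast]
        have h3 : (k : ℝ) ≤ B := by exact_mod_cast hk.le
        exact h3.trans (le_self_pow₀ hB1 (by omega))
      · simp
  have h2 : Set.InjOn (fun k : ℕ => (X ^ (2 * g + 1) + C ((k : ℕ) : 𝓞 F) : (𝓞 F)[X]))
      (Finset.range B : Set ℕ) := by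
    intro k _ l _ h
    have h3 := C_injective (add_left_cancel h)
    exact_mod_cast h3
  have h3 := Set.ncard_le_ncard_of_injOn _ (fun k hk => h1 k (Finset.mem_range.1 hk)) h2 hfin
  rwa [Set.ncard_coe_finset, Finset.card_range] at h3

theorem from_line {F : Type} [Field F] (h2 : (2 : F) ≠ 0) {g : ℕ} (hg : 1 ≤ g) {h : F[X]}
    (hd : h.natDegree = 2 * g + 1) (hsq : Squarefree h)
    (hP : ∀ P : CommRing.Pic (CR h), P = 1) : FromTheLine h (2 * g) := by
  intro L _ _ a b ha hab hdeg
  have hai : IsIntegral F a := ha.isIntegral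
  have hfa : FiniteDimensional F F⟮a⟯ := adjoin.finiteDimensional hai
  obtain ⟨t, ht⟩ : ∃ t : F⟮a⟯, (t : L) = aeval a h := by
    refine ⟨aeval (AdjoinSimple.gen F a) h, ?_⟩
    have h1 := aeval_algebraMap_apply L (AdjoinSimple.gen F a) h
    rw [AdjoinSimple.algebraMap_gen] at h1
    exact h1.symm
  have hpoly : aeval b (X ^ 2 - C t : F⟮a⟯[X]) = 0 := by
    rw [map_sub, map_pow, aeval_X, aeval_C, hab, ← ht]
    exact sub_self _
  have hbi : IsIntegral F⟮a⟯ b := ⟨X ^ 2 - C t, monic_X_pow_sub_C t two_ne_zero, hpoly⟩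
  have hle : (minpoly F⟮a⟯ b).natDegree ≤ 2 := by
    have h1 := natDegree_le_of_dvd (minpoly.dvd _ _ hpoly)
      (monic_X_pow_sub_C t two_ne_zero).ne_zero
    rwa [natDegree_X_pow_sub_C] at h1
  have hpos : 0 < (minpoly F⟮a⟯ b).natDegree := minpoly.natDegree_pos hbi
  have hfin : Module.finrank F F⟮a, b⟯ = Module.finrank F F⟮a⟯ * (minpoly F⟮a⟯ b).natDegree := by
    rw [← adjoin_simple_adjoin_simple F a b]
    have h1 := Module.finrank_mul_finrank F F⟮a⟯ F⟮a⟯⟮b⟯
    rw [adjoin.finrank hbi] at h1
    exact h1.symm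
  have hne : (minpoly F⟮a⟯ b).natDegree ≠ 1 := by
    intro h1
    rw [minpoly.natDegree_eq_one_iff] at h1
    obtain ⟨s, hs⟩ := h1
    refine no_alg h2 hg hd hsq hP hai ?_ (b := b) ?_ hab
    · rw [← adjoin.finrank hai]
      refine le_trans ?_ hdeg
      rw [hfin]
      exact Nat.le_mul_of_pos_right _ hpos
    · rw [← hs]
      exact s.2
  rw [hfin, mul_comm]
  congr 1
  omega

theorem good_of {F : Type} [Field F] [NumberField F] {g B : ℕ} (hg : 1 ≤ g)
    {f : (𝓞 F)[X]} (h1 : Ht g B f) (h2 : Irreducible (fF f)) (h3 : SelZero f)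
    (h5 : R2 f) : f ∈ Good F g B := by
  have hoddf : Odd f.natDegree := by
    rw [h1.deg]
    exact ⟨g, rfl⟩
  have h6 := (Pool.Agent.N783.PF.jac h1.mon hoddf h2 h3).1
  have h7 : Function.Surjective fun P : CommRing.Pic (CR (polyF F f)) => P ^ 2 := by
    have e : (fF f).map (algebraMap F F) = polyF F f := by
      rw [Algebra.algebraMap_self, Polynomial.map_id]
      rfl
    have h8 : Function.Bijective
        fun P : CommRing.Pic (CR ((fF f).map (algebraMap F F))) => P ^ 2 := h6
    rw [e] at h8
    exact h8.2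
  have h9 : ∀ P : CommRing.Pic (CR (polyF F f)), P = 1 :=
    pic_triv h1.mon h1.deg h2 h5 rfl h7
  have hdeg : (polyF F f).natDegree = 2 * g + 1 := by
    unfold polyF
    rw [h1.mon.natDegree_map, h1.deg]
  exact ⟨⟨h1.mon, h1.deg, h1.tr, h1.ht⟩, Irreducible.separable h2,
    from_line two_ne_zero hg hdeg (Irreducible.squarefree h2) h9⟩

/-- **Theorem.** Let `k` be a number field and `g ≥ 1`. For a positive proportion of all the monic
polynomials `f` of degree `2 g + 1` over the integers of `k` without term of degree `2 g`, ordered by height,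
the curve `y ^ 2 = f(x)` is smooth and every algebraic point `P = (a, b)` of it with `[k(P) : k] ≤ 2 g` has
`[k(P) : k(a)] = 2`. -/
theorem result (k : Type) [Field k] [NumberField k] (g : ℕ) (hg : 1 ≤ g) :
    ∃ c : ℝ, 0 < c ∧ ∃ B₀ : ℕ, ∀ B ≥ B₀, (Polys k g B).Finite ∧
      B ≤ (Polys k g B).ncard ∧ c * ((Polys k g B).ncard : ℝ) ≤ ((Good k g B).ncard : ℝ) := by
  obtain ⟨c, hc, B₀, hB⟩ := mainR g k hg
  refine ⟨c, hc, B₀, fun B hBB => ?_⟩
  obtain ⟨hfin, hcard⟩ := hB B hBB
  have e : {f : (𝓞 k)[X] | Ht g B f} = Polys k g B := by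
    ext f
    exact ⟨fun h => ⟨h.mon, h.deg, h.tr, h.ht⟩, fun h => ⟨h.monic, h.degree, h.trace, h.height⟩⟩
  rw [e] at hfin hcard
  refine ⟨hfin, le_ncard g B hg hfin, hcard.trans ?_⟩
  have h1 : {f : (𝓞 k)[X] | Ht g B f ∧ Irreducible (fF f) ∧ SelZero f ∧
      Pool.Agent.N783.PF.Min g f ∧ R2 f} ⊆ Good k g B := by
    rintro f ⟨h1, h2, h3, -, h5⟩
    exact good_of hg h1 h2 h3 h5
  have h2 : (Good k g B).Finite := hfin.subset (Set.sep_subset _ _)
  exact_mod_cast Set.ncard_le_ncard h1 h2

end Pool.Agent.Results.MP_6f1c57_nt.PointsFromTheLine
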